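import Pool.Agent.H142.FS.G
import Pool.Agent.H142.FS.F11
import Pool.Agent.H142.FS.F10
import Pool.Agent.H142.FS.E9
import Pool.Agent.H142.FS.D4

/-!
# Few Steiner points do not make flip distances in polygons linear

`Pool.Agent.H142.FS.Q1` (see `Pool.Agent.H142.FS.Defs`) is the statement of Q1: there are a function
`k(n) = o(n)` and a constant `C` such that for every simple polygon with `n` vertices and any two
triangulations of it one can insert at most `k(n)` Steiner points into both of them such that their
flip distance is afterwards at most `C n`. It is false: a polygon made of many independent double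
chains is a counterexample. Quantitatively, for all `k` and `L ≥ 1` there is a simple polygon with
`n = (2 k + 2) (2 L + 2) + 4` vertices and two triangulations of it such that after the insertion of
at most `k` Steiner points every sequence of flips between them has length at least
`(k + 2) L ^ 2 / 2`, which is of order `n ^ 2 / (k + 1)`.
-/

set_option autoImplicit false

open Pool.Agent.H142.FS

namespace Pool.Agent.Results.MP_fe41f2_co.FewSteinerPoints

theorem inv_of_triang {P : Set Pt} {S : Finset Pt} {T : Finset (Finset Pt)}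
    (h : IsTriangulation P S T) : Inv P S T := by
  intro t ht
  refine ⟨h.tri t ht, ?_, h.verts t ht⟩
  intro x hx
  rw [← h.cover]
  exact Set.mem_iUnion₂.2 ⟨t, ht, hx⟩

/-- Negative answer to Q1, together with a lower bound of order `n ^ 2 / (k + 1)` for the flip
distance after the insertion of at most `k` Steiner points. -/
theorem result :
    (¬ ∃ (k : ℕ → ℝ) (C : ℝ), Filter.Tendsto (fun n : ℕ => k n / n) Filter.atTop (nhds 0) ∧
      ∀ (n : ℕ) (v : ℕ → Pt) (P : Set Pt), IsSimplePolygon n v P →
      ∀ T₁ T₂ : Finset (Finset Pt),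
        IsTriangulation P ((Finset.range n).image v) T₁ →
        IsTriangulation P ((Finset.range n).image v) T₂ →
        ∃ (j : ℕ) (B : Finset (Finset Pt) × Finset (Finset Pt)),
          (j : ℝ) ≤ k n ∧ Steps InsertStep j (T₁, T₂) B ∧
          ∃ r : ℕ, (r : ℝ) ≤ C * n ∧ Steps Flip r B.1 B.2) ∧
    (∀ k L : ℕ, 1 ≤ L → ∃ (n : ℕ) (v : ℕ → Pt) (P : Set Pt) (T₁ T₂ : Finset (Finset Pt)),
      n = (2 * k + 2) * (2 * L + 2) + 4 ∧ IsSimplePolygon n v P ∧
      IsTriangulation P ((Finset.range n).image v) T₁ ∧
      IsTriangulation P ((Finset.range n).image v) T₂ ∧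
      ∀ j ≤ k, ∀ B : Finset (Finset Pt) × Finset (Finset Pt), Steps InsertStep j (T₁, T₂) B →
        ∀ r : ℕ, Steps Flip r B.1 B.2 → (k + 2) * L ^ 2 ≤ 2 * r) := by
  refine ⟨Pool.Agent.H142.FS.result, ?_⟩
  intro k L hL
  have h1 := T1_triang L (2 * k + 2) hL
  have h2 := T2_triang L (2 * k + 2) h1
  refine ⟨nv L (2 * k + 2), vert L (2 * k + 2), Poly L (2 * k + 2), T1 L (2 * k + 2),
    T2 L (2 * k + 2), rfl, simple L (2 * k + 2) hL, h1, h2, ?_⟩
  intro j hj B hB r hr
  have h := lower L (2 * k + 2) hL (inv_of_triang h1) (inv_of_triang h2) j r B hB hr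
  obtain ⟨d, rfl⟩ := Nat.exists_eq_add_of_le hj
  nlinarith [Nat.zero_le (d * (L * L))]

end Pool.Agent.Results.MP_fe41f2_co.FewSteinerPoints
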